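import Pool.Agent.Lib.MP_371b18_ag.Defs
import Pool.Agent.Lib.MP_371b18_ag.P.All

/-!
# MP_371b18_ag, Q1: the integrals `D` and `d` are polynomials in `g` of degree exactly `2|i|`

The definitions (Keel's presentation of the Chow ring of the space of pointed curves of genus `0`,
the degree functional, the cotangent line classes, the Hodge classes of the universal branched
double cover from the Grothendieck-Riemann-Roch formula of Mumford and Chiodo, and the integrals
`bigD`, `smallD`) are in `Pool.Agent.Lib.MP_371b18_ag.Defs`. The degree functional exists and is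
unique: `Pool.Agent.HH.degree_wellDefined` in `Pool.Agent.Lib.MP_371b18_ag.P.All`.
-/

open Finset

namespace Pool.Agent.Results.MP_371b18_ag.DegreeExact

open Pool.Agent.HHI

/-- For every `i` there are polynomials `P`, `Q` of degree exactly `2 |i|` (with the same leading
coefficient `1 / (2^(|i|+1) ∏ i_a!)`) with `D_{(i),2g+2} = P(g)`, for every choice of the twisted
point `j`, and `d_{(i),2g+2} = Q(g)`, for all `g ≥ 1` for which the exponents `2g - 1 - |i|`,
resp. `2g - |i|`, of the cotangent line class are not negative. -/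
theorem result :
    ∀ (r : ℕ) (i : Fin r → ℕ), ∃ P Q : Polynomial ℚ,
      P.natDegree = 2 * ∑ a, i a ∧ Q.natDegree = 2 * ∑ a, i a ∧
      P.leadingCoeff = 1 / (2 ^ (∑ a, i a + 1) * ∏ a, ((i a).factorial : ℚ)) ∧
      Q.leadingCoeff = 1 / (2 ^ (∑ a, i a + 1) * ∏ a, ((i a).factorial : ℚ)) ∧
      (∀ g : ℕ, 1 ≤ g → ∑ a, i a ≤ 2 * g - 1 → ∀ j : Fin (2 * g + 2),
        bigD i g j = P.eval (g : ℚ)) ∧
      (∀ g : ℕ, 1 ≤ g → ∑ a, i a ≤ 2 * g → smallD i g = Q.eval (g : ℚ)) :=
  Pool.Agent.HH.degree_exact

end Pool.Agent.Results.MP_371b18_ag.DegreeExact
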